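import Pool.Agent.GMD.Final

/-!
# Patterns of uniformization and the ground model (MP_3241a1_lc)

The definitions are in `Pool/Agent/GMD/Defs.lean`, which uses only Mathlib: transitive models of ZFC
(`ModelZFC`, sets or proper classes, every axiom stated inside the model), the Baire space of a
model (`Baire`), the lightface projective classes of a model (`Sigma`), the `Σ¹ₙ`-uniformization
property (`Unif`), the patterns (`Realizes`), and forcing (`Forcing`, `GenericFilter`,
`IsExtension`).

THEOREM.
(a) Let `N` be a transitive model of ZFC that realizes the pattern `r`. Then `r` belongs to `N`, and
`r` is definable in `N` by a formula without parameters.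
(b) For every countable ordinal `α` there is a perfect set of patterns `r` (the range of a continuous
injection of the Cantor space into itself) with `r(1) = 0` and `r(2) = 1`, such that every transitive
model of ZFC that realizes `r` contains `α`.
(c) For every countable set `M` (for instance a countable transitive model of ZFC, the ground
model) there is a perfect set of patterns `r` with `r(1) = 0` and `r(2) = 1` that are not realized by
any transitive model of ZFC whose ordinals belong to `M`. In particular, if `M` is a countable
transitive model of ZFC then no generic extension of `M`, for any forcing notion in `M`, realizes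
`r`. So the answer to the question for all `r` is negative for every fixed countable transitive
ground model: the ground model has to depend on the pattern.

PROOF.
(a) Let `R` be the Baire space of `N`; `R` is an element of `N` by the axioms of power set and
separation (the set of the `x ∈ N` that are functions from `ω` to `ω`). Let `W_e` be the `e`-th
recursively enumerable set of codes of finite sequences, and `U_e` the set of the `x` with an initial
segment in `W_e`. The graph of every partial recursive function is a set in `N` and is defined in `N`
by the same recursion (induction on the codes of partial recursive functions; all quantifiers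
range over `ω`), so `e ↦ U_e ∩ R` is a definable function on `ω` in `N`. In `N` define, by recursion
on `n`, `D_0 = {U_e ∩ R : e ∈ ω}` and `D_{n+1}` as the set of the sets
`{x ∈ R : ∃ y ∈ R, join x y ∉ B}`, `B ∈ D_n`. By induction on `n`, `D_n` is the set of the sets of reals
of `N` in the lightface class `Σ¹ₙ` of `N` (`join x y` is absolute, and a plane set is
identified with the set of the codes `join x y` of its points, so that plane sets in the class are
exactly the elements of `D_n`). So `Σ¹ₙ`-uniformization in `N` is the statement `UN(D_n)`: every
`A ∈ D_n` includes some `F ∈ D_n` such that for every `x ∈ R`, if there is `y ∈ R` with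
`join x y ∈ A` then there is exactly one `y ∈ R` with `join x y ∈ F`. The relation `UN(D_n)` of
`n ∈ ω` is defined in `N` by one formula without parameters (the recursion theorem in `N`), so by
separation the set of the `n` for which `Σ¹ₙ`-uniformization holds in `N` belongs to `N` and is
definable without parameters. The pattern `r` is this set, but for the value `r(0)`, which is
irrelevant and definable.
(b) Let `e` be an injection of `α` into `ω` and let `i E j` mean `i = e(γ)` and `j = e(δ)` with
`γ < δ < α`. For `s` in the Cantor space let `f s` be the pattern with the values `0`, `0`, `1` at `0`,
`1`, `2`, the value `s(n)` at `2n + 3`, and at `2 ⟨i, j⟩ + 4` the value `1` if and only if `i E j`. The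
map `f` is continuous and injective. Let `N` be a transitive model of ZFC that realizes `f s`. By (a)
`f s` belongs to `N`, so `E` belongs to `N`. The relation `E` on `ω` is well-founded, and the
recursion along `E` in `N`, `g(j) = {g(i) : i E j}`, gives `g(e(γ)) = γ` for `γ < α` and `g(j) = ∅`
for `j` not in the range of `e`. So if `α ≥ 1` then `{g(j) : j ∈ ω} = α`, and this set is in `N` by
replacement. (The case `α = 0` is trivial.)
(c) The set of the ordinals in `M` is countable, so there is a least ordinal `α` with `α ∉ M`; all
the smaller ordinals are in `M`, so `α` is countable. Take `f` from (b). If `N` realizes `f s` then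
`α ∈ N`, and if all ordinals of `N` are in `M` this is a contradiction. If `M` is a countable
transitive model of ZFC and `N` is a generic extension of `M`, then all ordinals of `N` are in `M`:
by induction on the names, the rank of the value of a name is at most the rank of the name.
-/

set_option autoImplicit false

namespace Pool.Agent.Results.MP_3241a1_lc.GroundModelDepends

open Pool.Agent.GMD

theorem result :
    (∀ (N : Set ZFSet.{0}) (r : ℕ → Bool), ModelZFC N → Realizes N r →
      pcode r ∈ N ∧ ∃ φ : SetFormula 1, ∀ x ∈ N, φ.Holds N (fun _ => x) ↔ x = pcode r) ∧
    (∀ α : Ordinal.{0}, (Set.Iio α).Countable →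
      ∃ f : (ℕ → Bool) → (ℕ → Bool), Continuous f ∧ Function.Injective f ∧
        ∀ s, f s 1 = false ∧ f s 2 = true ∧
          ∀ N : Set ZFSet.{0}, ModelZFC N → Realizes N (f s) → α.toZFSet ∈ N) ∧
    (∀ M : Set ZFSet.{0}, M.Countable →
      ∃ f : (ℕ → Bool) → (ℕ → Bool), Continuous f ∧ Function.Injective f ∧
        ∀ s, f s 1 = false ∧ f s 2 = true ∧
          (∀ N : Set ZFSet.{0}, ModelZFC N → (∀ x ∈ N, x.IsOrdinal → x ∈ M) →
            ¬ Realizes N (f s)) ∧
          (ModelZFC M → ∀ (P L t G : ZFSet.{0}) (N : Set ZFSet.{0}), Forcing M P L t →
            GenericFilter M P L G → IsExtension M G N → ¬ Realizes N (f s))) :=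
  ⟨fun _ _ h hr => part1 h hr, part2, part2''⟩

end Pool.Agent.Results.MP_3241a1_lc.GroundModelDepends
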