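import Pool.Agent.GMD.Final

/-!
# Homogeneous forcing realizes exactly one pattern, and it belongs to the ground model (MP_3241a1_lc)

The definitions are in `Pool/Agent/GMD/Defs.lean`, which uses only Mathlib: transitive models of ZFC
(`ModelZFC`), the Baire space of a model (`Baire`), the lightface projective classes of a model
(`Sigma`), the `Σ¹ₙ`-uniformization property (`Unif`), the patterns (`Realizes`), forcing notions and
generic extensions (`Forcing`, `GenericFilter`, `IsExtension`) and weakly homogeneous forcing notions
(`WeaklyHomogeneous`: for all `p, q` there is an automorphism `π` in `M` with `π p` and `q`
compatible; this includes Cohen, random and Sacks forcing, their products with finite or countable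
supports and the Levy collapses).

THEOREM. Let `M` be a countable transitive model of ZFC and `P` a weakly homogeneous forcing notion
in `M`. Then `P` has generic extensions over `M`, and there is a pattern `r` in `M` such that every
generic extension of `M` by `P` realizes `r`. So a pattern that does not belong to the ground model
is not realized by any weakly homogeneous forcing notion, and each weakly homogeneous forcing
notion realizes exactly one pattern.

PROOF. Generic filters exist as `M` is countable (Rasiowa and Sikorski), and `M[G]` is the least
transitive model of ZFC that includes `M` and contains `G`. There is one formula `φ(c, n)`, with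
parameters `c` in all transitive models of ZFC (hereditarily countable absolute objects: `ω`,
the enumeration of the recursively enumerable sets, the even and odd places), that expresses in all
transitive models of ZFC that `Σ¹ₙ`-uniformization holds: there are `R`, the Baire space of the
model, and a function `S` on `n + 1` with `S(0)` the set of the effectively open sets of reals and
`S(m + 1)` the set of the sets `{x ∈ R : ∃ y ∈ R, join x y ∉ B}` with `B ∈ S(m)`, and every `A ∈ S(n)`
includes some `F ∈ S(n)` such that for every `x ∈ R`, if there is `y ∈ R` with `join x y ∈ A` then
there is exactly one `y ∈ R` with `join x y ∈ F` (proofs in `Pool/Agent/GMD/UNI.lean`; the Baire space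
of the model is a set in the model, and the definition by recursion is correct in every transitive
model of ZFC). Let `G`, `G'` be generic filters and suppose that `φ(c, n)` is true in `M[G]` and false
in `M[G']`. By the forcing theorem there are `p ∈ G` that forces `φ(c, n)` and `q ∈ G'` that forces its
negation. Let `π ∈ M` be an automorphism of `P` and `s` a common extension of `π p` and `q`, and let `H`
be a generic filter that contains `s`. As `q ∈ H`, `φ(c, n)` is false in `M[H]`. The preimage `H'` of
`H` under `π` is a generic filter that contains `p`, so `φ(c, n)` is true in `M[H']`. But
`M[H] = M[H']`, as `π ∈ M`; a contradiction. So all generic extensions by `P` realize the same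
pattern `r`. Moreover `r(n) = 1` if and only if some `p ∈ P` forces `φ(c, n)`, and the relation of
forcing is definable in `M`; so `r ∈ M` by separation in `M`.
-/

set_option autoImplicit false

namespace Pool.Agent.Results.MP_3241a1_lc.HomogeneousForcing

open Pool.Agent.GMD

theorem result (M : Set ZFSet.{0}) (hM : M.Countable) (hZ : ModelZFC M) (P L t : ZFSet.{0})
    (hP : Forcing M P L t) (hW : WeaklyHomogeneous M P L) :
    (∃ (G : ZFSet.{0}) (N : Set ZFSet.{0}), GenericFilter M P L G ∧ IsExtension M G N) ∧
    ∃ r : ℕ → Bool, pcode r ∈ M ∧
      ∀ (G : ZFSet.{0}) (N : Set ZFSet.{0}), GenericFilter M P L G → IsExtension M G N →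
        Realizes N r :=
  part3 hM hZ hP hW

end Pool.Agent.Results.MP_3241a1_lc.HomogeneousForcing
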