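import Pool.Agent.GMD.Final

/-!
# A dichotomy for the patterns realized by the generic extensions by one forcing notion (MP_3241a1_lc)

The definitions are in `Pool/Agent/GMD/Defs.lean`, which uses only Mathlib: transitive models of ZFC
(`ModelZFC`), the Baire space of a model (`Baire`), the lightface projective classes of a model
(`Sigma`), the `Σ¹ₙ`-uniformization property (`Unif`), the patterns (`Realizes`), forcing notions and
generic extensions (`Forcing`, `GenericFilter`, `IsExtension`).

THEOREM. Let `M` be a countable transitive model of ZFC and `P` a forcing notion in `M`. Then either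
(i) all patterns realized by generic extensions of `M` by `P` belong to `M`, or (ii) there is a
perfect set of patterns each of which is realized by a generic extension of `M` by `P` (the range of a
continuous injection of the Cantor space into the space of patterns).

PROOF. There is one formula `φ(c, m)`, with parameters `c` that are in all transitive models of ZFC,
that expresses in all transitive models of ZFC that `Σ¹ₘ`-uniformization holds (see the proof of
HomogeneousForcing, and `Pool/Agent/GMD/UNI.lean`). Write `U(G) = {m : M[G] ⊨ φ(c, m)}`. By the
forcing theorem the relations that `p` forces `φ(c, m)`, and that `p` forces the negation, are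
definable in `M`; say that `q` decides `m` if one of them holds. Let `Q ∈ M` be the set of the `q ∈ P`
that decide all `m`. Suppose that `U(G) ∉ M` for some generic filter `G`. The set of the `q` that are
in `Q` or have no extension in `Q` is dense and in `M`, so it meets `G`. If `q ∈ G ∩ Q` then
`U(G) = {m : q forces φ(c, m)} ∈ M`, a contradiction. So there is `p ∈ G` with no extension in `Q`:
every `q ≤ p` leaves some `m` undecided, and then there are `q0, q1 ≤ q` such that `q0` forces the
negation of `φ(c, m)` and `q1` forces `φ(c, m)`. Enumerate the dense sets `D_n ∈ M`. Define conditions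
`p_s` for finite sequences `s` of bits: `p_∅ = p`; given `p_s` take `q ≤ p_s` in `D_{|s|}`, the least
`m_s` that `q` does not decide, and extensions `p_{s0}`, `p_{s1}` of `q` that force the negation of
`φ(c, m_s)` and `φ(c, m_s)`. For `x` in the Cantor space the filter `F(x)` generated by the
conditions `p_{x|n}` is generic, and `m_{x|n} ∈ U(F(x))` if and only if `x(n) = 1`; so `x ↦ U(F(x))` is
injective. The set of the conditions that decide `m` is one of the sets `D_n`, so `U(F(x))` depends
continuously on `x`. Let `f x` be the pattern `r` with `r(m) = 1` if and only if `m ∈ U(F(x))`; it is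
realized by `M[F(x)]`.
-/

set_option autoImplicit false

namespace Pool.Agent.Results.MP_3241a1_lc.PatternDichotomy

open Pool.Agent.GMD

theorem result (M : Set ZFSet.{0}) (hM : M.Countable) (hZ : ModelZFC M) (P L t : ZFSet.{0})
    (hP : Forcing M P L t) :
    (∀ (G : ZFSet.{0}) (N : Set ZFSet.{0}) (r : ℕ → Bool), GenericFilter M P L G →
      IsExtension M G N → Realizes N r → pcode r ∈ M) ∨
    ∃ f : (ℕ → Bool) → (ℕ → Bool), Continuous f ∧ Function.Injective f ∧
      ∀ s, ∃ (G : ZFSet.{0}) (N : Set ZFSet.{0}), GenericFilter M P L G ∧ IsExtension M G N ∧
        Realizes N (f s) :=
  part4 hM hZ hP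

end Pool.Agent.Results.MP_3241a1_lc.PatternDichotomy
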